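import Pool.Agent.Q229.TC.Defs

/-!
# MP_13da68_co, Q2: the exponent `d - 1` fails in dimension 3

For `n = 3 m` the lattices generated by `(n,0,0)`, `(a,n,0)`, `(b,c,m)` cut `[n]^3` into triples; there are about `n^3`
different such partitions and each has `3^{n^3/3}` common transversals, which are tiles.
-/

set_option autoImplicit false

namespace Pool.Agent.Results.MP_13da68_co.DimensionThree

open Finset Pool.Agent.Q229.TC

/-- a layer of the box -/
abbrev Y (n : ℕ) := ZMod n × ZMod n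

section
variable {n : ℕ} [NeZero n]

/-- the shift of one layer: `th = (b, b', c)` -/
def phi (th : ZMod n × ZMod n × ZMod n) (u : Y n) : Y n :=
  (u.1 + (if u.2.val + th.2.2.val < n then th.1 else th.2.1), u.2 + th.2.2)

omit [NeZero n] in
theorem phi_inj (th : ZMod n × ZMod n × ZMod n) : Function.Injective (phi th) := by
  rintro ⟨x, y⟩ ⟨x', y'⟩ h
  simp only [phi, Prod.mk.injEq, add_left_inj] at h
  obtain ⟨h1, rfl⟩ := h
  simp only [add_left_inj] at h1
  rw [h1]

theorem phi_surj (th : ZMod n × ZMod n × ZMod n) : Function.Surjective (phi th) :=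
  Finite.surjective_of_injective (phi_inj th)

/-- different parameters give different shifts -/
theorem phi_ne (hn : 2 ≤ n) {th th' : ZMod n × ZMod n × ZMod n} (h : th ≠ th') (hc : th.2.2 ≠ 0) (hc' : th'.2.2 ≠ 0) :
    ∃ u, phi th u ≠ phi th' u := by
  by_contra hcon
  push Not at hcon
  apply h
  obtain ⟨b, b', c⟩ := th
  obtain ⟨β, β', γ⟩ := th'
  simp only at hc hc'
  have h1 := hcon (0, 0)
  simp only [phi, Prod.mk.injEq, zero_add, ZMod.val_zero] at h1
  have hcγ : c = γ := h1.2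
  subst hcγ
  have h2 := h1.1
  rw [if_pos (ZMod.val_lt c), if_pos (ZMod.val_lt c)] at h2
  -- the last row wraps around
  have h3 := hcon (0, -1)
  simp only [phi, Prod.mk.injEq, zero_add] at h3
  have hv : (-1 : ZMod n).val = n - 1 := by
    obtain ⟨k, rfl⟩ : ∃ k, n = k + 1 := ⟨n - 1, by omega⟩
    rw [ZMod.val_neg_one]; rfl
  have hcpos : 0 < c.val := Nat.pos_of_ne_zero fun h0 => hc ((ZMod.val_eq_zero c).1 h0)
  have h4 : ¬ (-1 : ZMod n).val + c.val < n := by rw [hv]; omega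
  rw [if_neg h4, if_neg h4] at h3
  rw [h2, h3.1]

/-- the lattice -/
def lat (m : ℕ) (th : ZMod n × ZMod n × ZMod n) : AddSubgroup (Fin 3 → ℤ) where
  carrier := {w | ∃ i j k : ℤ, w 0 = n * i + ((th.1.val : ℤ) - th.2.1.val) * j + th.1.val * k ∧
    w 1 = n * j + th.2.2.val * k ∧ w 2 = m * k}
  zero_mem' := ⟨0, 0, 0, by simp, by simp, by simp⟩
  add_mem' := by
    rintro w w' ⟨i, j, k, h0, h1, h2⟩ ⟨i', j', k', h0', h1', h2'⟩
    refine ⟨i + i', j + j', k + k', ?_, ?_, ?_⟩
    · rw [Pi.add_apply, h0, h0']; ring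
    · rw [Pi.add_apply, h1, h1']; ring
    · rw [Pi.add_apply, h2, h2']; ring
  neg_mem' := by
    rintro w ⟨i, j, k, h0, h1, h2⟩
    refine ⟨-i, -j, -k, ?_, ?_, ?_⟩
    · rw [Pi.neg_apply, h0]; ring
    · rw [Pi.neg_apply, h1]; ring
    · rw [Pi.neg_apply, h2]; ring

/-- the point of the box in column `u` (of a layer) and layer `z` -/
def pnt (u : Y n) (z : ℕ) : Fin 3 → ℤ := ![(u.1.val : ℤ) + 1, (u.2.val : ℤ) + 1, (z : ℤ) + 1]

omit [NeZero n] in
theorem pnt0 (u : Y n) (z : ℕ) : pnt u z 0 = (u.1.val : ℤ) + 1 := rfl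
omit [NeZero n] in
theorem pnt1 (u : Y n) (z : ℕ) : pnt u z 1 = (u.2.val : ℤ) + 1 := rfl
omit [NeZero n] in
theorem pnt2 (u : Y n) (z : ℕ) : pnt u z 2 = (z : ℤ) + 1 := rfl

theorem pnt_inj {u u' : Y n} {z z' : ℕ} (h : pnt u z = pnt u' z') : u = u' ∧ z = z' := by
  have h0 := congrFun h 0
  have h1 := congrFun h 1
  have h2 := congrFun h 2
  simp only [pnt0, pnt1, pnt2, add_left_inj, Nat.cast_inj] at h0 h1 h2
  exact ⟨Prod.ext (ZMod.val_injective n h0) (ZMod.val_injective n h1), h2⟩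

/-- one step up stays in the same class -/
theorem step (m : ℕ) (th : ZMod n × ZMod n × ZMod n) (u : Y n) (z : ℕ) :
    pnt (phi th u) (z + m) - pnt u z ∈ lat m th := by
  obtain ⟨x, y⟩ := u
  obtain ⟨b, b', c⟩ := th
  have hmod : ∀ p q : ZMod n, ∃ i : ℤ, ((p + q).val : ℤ) = p.val + q.val + n * i := by
    intro p q
    refine ⟨-(((p.val + q.val) / n : ℕ) : ℤ), ?_⟩
    rw [ZMod.val_add]
    have := Nat.mod_add_div (p.val + q.val) n
    have h2 : (((p.val + q.val) % n : ℕ) : ℤ) + n * ((p.val + q.val) / n : ℕ) = p.val + q.val := by exact_mod_cast this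
    linarith
  by_cases hlt : y.val + c.val < n
  · obtain ⟨i, hi⟩ := hmod x b
    refine ⟨i, 0, 1, ?_, ?_, ?_⟩
    · rw [Pi.sub_apply, pnt0, pnt0]
      simp only [phi, hlt, if_true]
      rw [hi]; ring
    · rw [Pi.sub_apply, pnt1, pnt1]
      simp only [phi]
      rw [ZMod.val_add_of_lt hlt]; push_cast; ring
    · rw [Pi.sub_apply, pnt2, pnt2]
      push_cast; ring
  · obtain ⟨i, hi⟩ := hmod x b'
    refine ⟨i, -1, 1, ?_, ?_, ?_⟩
    · rw [Pi.sub_apply, pnt0, pnt0]
      simp only [phi, hlt, if_false]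
      rw [hi]; ring
    · rw [Pi.sub_apply, pnt1, pnt1]
      simp only [phi]
      have h1 : (y + c).val = y.val + c.val - n := by
        rw [ZMod.val_add, Nat.mod_eq_sub_mod (by omega), Nat.mod_eq_of_lt]
        have := ZMod.val_lt y; have := ZMod.val_lt c; omega
      rw [h1, Nat.cast_sub (by omega)]; push_cast; ring
    · rw [Pi.sub_apply, pnt2, pnt2]
      push_cast; ring

/-- the base points are pairwise incongruent -/
theorem base_unique {m : ℕ} (th : ZMod n × ZMod n × ZMod n) {u u' : Y n} {z z' : ℕ} (hz : z < m) (hz' : z' < m)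
    (h : pnt u z - pnt u' z' ∈ lat m th) : u = u' ∧ z = z' := by
  obtain ⟨i, j, k, h0, h1, h2⟩ := h
  rw [Pi.sub_apply, pnt0, pnt0] at h0
  rw [Pi.sub_apply, pnt1, pnt1] at h1
  rw [Pi.sub_apply, pnt2, pnt2] at h2
  have hsmall : ∀ (a b N q : ℤ), 0 ≤ a → a < N → 0 ≤ b → b < N → a - b = N * q → q = 0 := by
    intro a b N q h1 h2 h3 h4 h5
    by_contra hq
    rcases lt_or_gt_of_ne hq with h | h
    · nlinarith
    · nlinarith
  have hk : k = 0 := by
    apply hsmall z z' m k (by positivity) (by exact_mod_cast hz) (by positivity) (by exact_mod_cast hz')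
    linarith
  subst hk
  have hj : j = 0 := by
    apply hsmall u.2.val u'.2.val n j (by positivity) (by exact_mod_cast ZMod.val_lt u.2) (by positivity)
      (by exact_mod_cast ZMod.val_lt u'.2)
    linarith
  subst hj
  have hi : i = 0 := by
    apply hsmall u.1.val u'.1.val n i (by positivity) (by exact_mod_cast ZMod.val_lt u.1) (by positivity)
      (by exact_mod_cast ZMod.val_lt u'.1)
    linarith
  subst hi
  have e0 : (u.1.val : ℤ) = u'.1.val := by linarith
  have e1 : (u.2.val : ℤ) = u'.2.val := by linarith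
  have e2 : (z : ℤ) = z' := by linarith
  exact ⟨Prod.ext (ZMod.val_injective n (by exact_mod_cast e0)) (ZMod.val_injective n (by exact_mod_cast e1)),
    by exact_mod_cast e2⟩

/-- every point is congruent to a base point -/
theorem base_exists {m : ℕ} (hm : 0 < m) (th : ZMod n × ZMod n × ZMod n) (w : Fin 3 → ℤ) :
    ∃ (u : Y n) (z : ℕ), z < m ∧ w - pnt u z ∈ lat m th := by
  obtain ⟨b, b', c⟩ := th
  set a : ℤ := (b.val : ℤ) - b'.val with ha
  set k : ℤ := (w 2 - 1) / m with hk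
  set Y1 : ℤ := w 1 - 1 - c.val * k with hY1
  set j : ℤ := Y1 / n with hj
  set X1 : ℤ := w 0 - 1 - a * j - b.val * k with hX1
  set i : ℤ := X1 / n with hi
  have hm' : (0 : ℤ) < m := by exact_mod_cast hm
  have hz0 : 0 ≤ (w 2 - 1) % m := Int.emod_nonneg _ hm'.ne'
  have hz1 : (w 2 - 1) % m < m := Int.emod_lt_of_pos _ hm'
  refine ⟨((X1 : ZMod n), (Y1 : ZMod n)), ((w 2 - 1) % m).toNat, by omega, i, j, k, ?_, ?_, ?_⟩
  · rw [Pi.sub_apply, pnt0]
    simp only
    rw [ZMod.val_intCast]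
    have := Int.emod_add_mul_ediv X1 n
    rw [← hi] at this
    simp only [hX1] at this ⊢
    linarith
  · rw [Pi.sub_apply, pnt1]
    simp only
    rw [ZMod.val_intCast]
    have := Int.emod_add_mul_ediv Y1 n
    rw [← hj] at this
    simp only [hY1] at this ⊢
    linarith
  · rw [Pi.sub_apply, pnt2]
    rw [Int.toNat_of_nonneg hz0]
    have := Int.emod_add_mul_ediv (w 2 - 1) m
    rw [← hk] at this
    linarith

/-- the tile that selects in the class of `(u, z)` the point in layer `z + κ z u * m` -/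
def enc (m : ℕ) (th : ZMod n × ZMod n × ZMod n) (κ : Fin m → Y n → Fin 3) : Finset (Fin 3 → ℤ) :=
  (univ : Finset (Fin m × Y n)).image fun p => pnt ((phi th)^[(κ p.1 p.2 : ℕ)] p.2) (p.1 + (κ p.1 p.2 : ℕ) * m)

theorem step_iter (m : ℕ) (th : ZMod n × ZMod n × ZMod n) (u : Y n) (z k : ℕ) :
    pnt ((phi th)^[k] u) (z + k * m) - pnt u z ∈ lat m th := by
  induction k with
  | zero => simp
  | succ k ih =>
    have h1 := step m th ((phi th)^[k] u) (z + k * m)
    have h2 := (lat m th).add_mem h1 ih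
    rw [Function.iterate_succ_apply']
    have e : z + (k + 1) * m = z + k * m + m := by ring
    rw [e]
    convert h2 using 1
    abel

theorem enc_tiles {m : ℕ} (hm : 0 < m) (th : ZMod n × ZMod n × ZMod n) (κ : Fin m → Y n → Fin 3) :
    TilesByTranslations (enc m th κ) := by
  refine ⟨{w | w ∈ lat m th}, fun w => ?_⟩
  obtain ⟨u, z, hz, hw⟩ := base_exists hm th w
  set s := pnt ((phi th)^[(κ ⟨z, hz⟩ u : ℕ)] u) (z + (κ ⟨z, hz⟩ u : ℕ) * m) with hs
  have hsmem : s ∈ enc m th κ := mem_image.2 ⟨(⟨z, hz⟩, u), mem_univ _, rfl⟩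
  have hsl : s - pnt u z ∈ lat m th := step_iter m th u z _
  refine ⟨(s, w - s), ⟨hsmem, ?_, by simp⟩, ?_⟩
  · have := (lat m th).sub_mem hw hsl
    show w - s ∈ lat m th
    convert this using 1
    abel
  · rintro ⟨s', y⟩ ⟨h1, h2, h3⟩
    simp only at h1 h2 h3
    obtain ⟨⟨z', u'⟩, -, hs'⟩ := mem_image.1 h1
    simp only at hs'
    have h4 : s' - pnt u' z' ∈ lat m th := by rw [← hs']; exact step_iter m th u' z' _
    have h5 : pnt u z - pnt u' z' ∈ lat m th := by
      have hy : w - s' ∈ lat m th := by rw [← h3]; simpa using h2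
      have := (lat m th).sub_mem ((lat m th).add_mem h4 hy) hw
      convert this using 1
      abel
    obtain ⟨e1, e2⟩ := base_unique th hz z'.2 h5
    have e3 : z' = ⟨z, hz⟩ := Fin.ext e2.symm
    subst e1
    rw [e3] at hs'
    have : s' = s := by rw [← hs']
    rw [this]
    have : y = w - s := by rw [← h3, this]; abel
    rw [this]

theorem enc_sub {m : ℕ} (hn : n = 3 * m) (th : ZMod n × ZMod n × ZMod n) (κ : Fin m → Y n → Fin 3) :
    enc m th κ ⊆ ibox n 3 := by
  intro s hs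
  obtain ⟨⟨z, u⟩, -, rfl⟩ := mem_image.1 hs
  simp only
  rw [ibox, Fintype.mem_piFinset]
  set q := (phi th)^[(κ z u : ℕ)] u
  have h1 := ZMod.val_lt q.1
  have h2 := ZMod.val_lt q.2
  have h3 := z.2
  have h4 := (κ z u).2
  have h5 : (κ z u : ℕ) * m ≤ 2 * m := Nat.mul_le_mul_right m (by omega)
  intro i
  rw [mem_Icc]
  fin_cases i
  · constructor
    · show (1 : ℤ) ≤ (q.1.val : ℤ) + 1
      have : (0 : ℤ) ≤ (q.1.val : ℤ) := Int.natCast_nonneg _
      linarith
    · show (q.1.val : ℤ) + 1 ≤ n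
      exact_mod_cast h1
  · constructor
    · show (1 : ℤ) ≤ (q.2.val : ℤ) + 1
      have : (0 : ℤ) ≤ (q.2.val : ℤ) := Int.natCast_nonneg _
      linarith
    · show (q.2.val : ℤ) + 1 ≤ n
      exact_mod_cast h2
  · constructor
    · show (1 : ℤ) ≤ ((z + (κ z u : ℕ) * m : ℕ) : ℤ) + 1
      have : (0 : ℤ) ≤ ((z + (κ z u : ℕ) * m : ℕ) : ℤ) := Int.natCast_nonneg _
      linarith
    · show ((z + (κ z u : ℕ) * m : ℕ) : ℤ) + 1 ≤ n
      have : z + (κ z u : ℕ) * m + 1 ≤ n := by omega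
      exact_mod_cast this

/-- membership in the tile determines `κ` -/
theorem mem_enc {m : ℕ} (hm : 0 < m) (th : ZMod n × ZMod n × ZMod n) (κ : Fin m → Y n → Fin 3) (z : Fin m) (u : Y n)
    (k : Fin 3) (h : pnt ((phi th)^[(k : ℕ)] u) (z + (k : ℕ) * m) ∈ enc m th κ) : κ z u = k := by
  obtain ⟨⟨z', u'⟩, -, h1⟩ := mem_image.1 h
  simp only at h1
  have h2 := step_iter m th u' z' (κ z' u' : ℕ)
  rw [h1] at h2
  have h3 := step_iter m th u z (k : ℕ)
  have h4 : pnt u z - pnt u' z' ∈ lat m th := by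
    have := (lat m th).sub_mem h2 h3
    convert this using 1
    abel
  obtain ⟨e1, e2⟩ := base_unique th z.2 z'.2 h4
  have e3 : z' = z := Fin.ext e2.symm
  subst e1; subst e3
  have h5 := (pnt_inj h1).2
  have h6 : (κ z' u : ℕ) * m = (k : ℕ) * m := by omega
  exact Fin.ext (Nat.eq_of_mul_eq_mul_right hm h6)

theorem enc_inj {m : ℕ} (hm : 0 < m) (th : ZMod n × ZMod n × ZMod n) : Function.Injective (enc m th) := by
  intro κ κ' h
  funext z u
  have : pnt ((phi th)^[(κ' z u : ℕ)] u) (z + (κ' z u : ℕ) * m) ∈ enc m th κ := by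
    rw [h]; exact mem_image.2 ⟨(z, u), mem_univ _, rfl⟩
  exact mem_enc hm th κ z u _ this

/-- common transversals of two different partitions are rare -/
theorem common {m : ℕ} (hm : 0 < m) (th th' : ZMod n × ZMod n × ZMod n) (u : Y n) (hu : phi th u ≠ phi th' u) :
    ∃ v, v ≠ u ∧ ∀ κ κ', enc m th κ = enc m th' κ' → ∀ z, ¬ (κ z u = 0 ∧ κ z v = 1) := by
  obtain ⟨v, hv⟩ := phi_surj th (phi th' u)
  refine ⟨v, ?_, ?_⟩
  · rintro rfl; exact hu hv
  · rintro κ κ' he z ⟨h0, h1⟩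
    have m0 : pnt ((phi th)^[(κ z u : ℕ)] u) (z + (κ z u : ℕ) * m) ∈ enc m th κ :=
      mem_image.2 ⟨(z, u), mem_univ _, rfl⟩
    have m1 : pnt ((phi th)^[(κ z v : ℕ)] v) (z + (κ z v : ℕ) * m) ∈ enc m th κ :=
      mem_image.2 ⟨(z, v), mem_univ _, rfl⟩
    rw [h0, he] at m0
    rw [h1, he] at m1
    have e0 : κ' z u = 0 := mem_enc hm th' κ' z u 0 m0
    have e1 : κ' z u = 1 := by
      apply mem_enc hm th' κ' z u 1
      have : (phi th)^[((1 : Fin 3) : ℕ)] v = (phi th')^[((1 : Fin 3) : ℕ)] u := hv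
      rw [← this]; exact m1
    rw [e0] at e1
    exact absurd e1 (by decide)

end

/-- functions that avoid one pair of values -/
theorem count_avoid {α : Type} [Fintype α] [DecidableEq α] (u v : α) (huv : v ≠ u) :
    9 * (univ.filter fun f : α → Fin 3 => ¬ (f u = 0 ∧ f v = 1)).card = 8 * 3 ^ Fintype.card α := by
  classical
  have h1 : (univ.filter fun f : α → Fin 3 => f u = 0 ∧ f v = 1) =
      Fintype.piFinset fun y => if y = u then {0} else if y = v then {1} else univ := by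
    ext f
    simp only [mem_filter, mem_univ, true_and, Fintype.mem_piFinset]
    constructor
    · rintro ⟨h1, h2⟩ y
      split_ifs with h3 h4
      · rw [h3, h1]; simp
      · rw [h4, h2]; simp
      · simp
    · intro h
      have a1 := h u
      have a2 := h v
      rw [if_pos rfl] at a1
      rw [if_neg huv, if_pos rfl] at a2
      exact ⟨by simpa using a1, by simpa using a2⟩
  have h2 : 9 * (univ.filter fun f : α → Fin 3 => f u = 0 ∧ f v = 1).card = 3 ^ Fintype.card α := by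
    rw [h1, Fintype.card_piFinset]
    have e1 : ∀ y, (if y = u then ({0} : Finset (Fin 3)) else if y = v then {1} else univ).card *
        ((if y = u then 3 else 1) * (if y = v then 3 else 1)) = 3 := by
      intro y
      by_cases h3 : y = u
      · subst h3
        simp [huv.symm]
      · by_cases h4 : y = v
        · subst h4; simp [h3]
        · simp [h3, h4]
    have e2 : ∏ y : α, ((if y = u then ({0} : Finset (Fin 3)) else if y = v then {1} else univ).card *
        ((if y = u then 3 else 1) * (if y = v then 3 else 1))) = 3 ^ Fintype.card α := by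
      rw [prod_congr rfl fun y _ => e1 y, prod_const, card_univ]
    rw [prod_mul_distrib, prod_mul_distrib, prod_ite_eq', prod_ite_eq'] at e2
    simp only [mem_univ, if_true] at e2
    linarith
  have h3 := card_filter_add_card_filter_not (s := (univ : Finset (α → Fin 3))) (fun f => f u = 0 ∧ f v = 1)
  rw [card_univ, Fintype.card_fun, Fintype.card_fin] at h3
  omega

/-- the lower bound: with `M = n²(n-1)` parameters, `Q = 3^{9m³}` tiles for each and at most `(8/9)^m Q` common ones -/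
theorem lower (m : ℕ) (hm : 0 < m) :
    ((3 * m) ^ 2 * (3 * m - 1) : ℝ) * (1 - ((3 * m) ^ 2 * (3 * m - 1) : ℝ) * (8 / 9) ^ m) * 3 ^ (9 * m ^ 3) ≤
      t (3 * m) 3 := by
  classical
  set n := 3 * m with hn
  have hnz : NeZero n := ⟨by omega⟩
  -- parameters
  set Θ : Finset (ZMod n × ZMod n × ZMod n) := univ.filter fun th => th.2.2 ≠ 0 with hΘ
  have hΘc : Θ.card = n ^ 2 * (n - 1) := by
    have h1 : Θ = univ ×ˢ (univ ×ˢ (univ.erase 0)) := by
      ext ⟨a, b, c⟩; simp [hΘ]
    rw [h1, card_product, card_product, card_erase_of_mem (mem_univ _), card_univ, ZMod.card]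
    ring
  -- the tiles of one parameter
  let A : (ZMod n × ZMod n × ZMod n) → Finset (Finset (Fin 3 → ℤ)) := fun th =>
    (univ : Finset (Fin m → Y n → Fin 3)).image (enc m th)
  have hYc : Fintype.card (Y n) = n ^ 2 := by
    rw [Fintype.card_prod, ZMod.card]; ring
  have hAc : ∀ th, (A th).card = 3 ^ (9 * m ^ 3) := by
    intro th
    rw [card_image_of_injective _ (enc_inj hm th), card_univ, Fintype.card_fun, Fintype.card_fun, Fintype.card_fin,
      hYc, Fintype.card_fin, ← pow_mul]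
    congr 1
    rw [hn]; ring
  have hAt : ∀ th, A th ⊆ (ibox n 3).powerset.filter fun S => TilesByTranslations S := by
    intro th S hS
    obtain ⟨κ, -, rfl⟩ := mem_image.1 hS
    exact mem_filter.2 ⟨mem_powerset.2 (enc_sub hn th κ), enc_tiles hm th κ⟩
  -- common tiles
  have hcom : ∀ th ∈ Θ, ∀ th' ∈ Θ, th ≠ th' → 9 ^ m * (A th ∩ A th').card ≤ 8 ^ m * 3 ^ (9 * m ^ 3) := by
    intro th hth th' hth' hne
    obtain ⟨u, hu⟩ := phi_ne (by omega) hne (mem_filter.1 hth).2 (mem_filter.1 hth').2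
    obtain ⟨v, hvu, hv⟩ := common hm th th' u hu
    set good : Finset (Y n → Fin 3) := univ.filter fun f => ¬ (f u = 0 ∧ f v = 1) with hgood
    have h1 : (A th ∩ A th').card ≤ (Fintype.piFinset fun _ : Fin m => good).card := by
      have hsub : A th ∩ A th' ⊆ (Fintype.piFinset fun _ : Fin m => good).image (enc m th) := by
        intro S hS
        obtain ⟨hS1, hS2⟩ := mem_inter.1 hS
        obtain ⟨κ, -, rfl⟩ := mem_image.1 hS1
        obtain ⟨κ', -, hκ'⟩ := mem_image.1 hS2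
        refine mem_image.2 ⟨κ, ?_, rfl⟩
        rw [Fintype.mem_piFinset]
        intro z
        exact mem_filter.2 ⟨mem_univ _, hv κ κ' hκ'.symm z⟩
      exact le_trans (card_le_card hsub) card_image_le
    rw [Fintype.card_piFinset, prod_const, card_univ, Fintype.card_fin] at h1
    have h2 := count_avoid u v hvu
    rw [hYc] at h2
    calc 9 ^ m * (A th ∩ A th').card ≤ 9 ^ m * good.card ^ m := Nat.mul_le_mul_left _ h1
      _ = (9 * good.card) ^ m := by rw [mul_pow]
      _ = (8 * 3 ^ n ^ 2) ^ m := by rw [hgood, h2]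
      _ = 8 ^ m * 3 ^ (9 * m ^ 3) := by
        rw [mul_pow, ← pow_mul]
        congr 2
        rw [hn]; ring
  -- disjoint parts
  let Bd : (ZMod n × ZMod n × ZMod n) → Finset (Finset (Fin 3 → ℤ)) := fun th =>
    A th \ (Θ.erase th).biUnion fun th' => A th ∩ A th'
  have hBdis : ∀ th ∈ Θ, ∀ th' ∈ Θ, th ≠ th' → Disjoint (Bd th) (Bd th') := by
    intro th hth th' hth' hne
    rw [Finset.disjoint_left]
    intro S hS hS'
    obtain ⟨h1, h2⟩ := mem_sdiff.1 hS
    obtain ⟨h3, -⟩ := mem_sdiff.1 hS'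
    exact h2 (mem_biUnion.2 ⟨th', mem_erase.2 ⟨hne.symm, hth'⟩, mem_inter.2 ⟨h1, h3⟩⟩)
  set Q : ℝ := 3 ^ (9 * m ^ 3) with hQ
  have hcomR : ∀ th ∈ Θ, ∀ th' ∈ Θ, th ≠ th' → ((A th ∩ A th').card : ℝ) ≤ (8 / 9) ^ m * Q := by
    intro th hth th' hth' hne
    have h1 := hcom th hth th' hth' hne
    have h2 : (9 : ℝ) ^ m * ((A th ∩ A th').card : ℝ) ≤ 8 ^ m * Q := by rw [hQ]; exact_mod_cast h1
    rw [div_pow, div_mul_eq_mul_div, le_div_iff₀ (by positivity)]
    linarith
  have hBc : ∀ th ∈ Θ, Q - (Θ.card : ℝ) * ((8 / 9) ^ m * Q) ≤ ((Bd th).card : ℝ) := by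
    intro th hth
    have h1 : (A th).card ≤ (Bd th).card + ((Θ.erase th).biUnion fun th' => A th ∩ A th').card := by
      have := le_card_sdiff ((Θ.erase th).biUnion fun th' => A th ∩ A th') (A th)
      show (A th).card ≤ (A th \ (Θ.erase th).biUnion fun th' => A th ∩ A th').card + _
      omega
    have h2 : (((Θ.erase th).biUnion fun th' => A th ∩ A th').card : ℝ) ≤ (Θ.card : ℝ) * ((8 / 9) ^ m * Q) := by
      calc (((Θ.erase th).biUnion fun th' => A th ∩ A th').card : ℝ)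
          ≤ ∑ th' ∈ Θ.erase th, ((A th ∩ A th').card : ℝ) := by exact_mod_cast card_biUnion_le
        _ ≤ ∑ th' ∈ Θ.erase th, (8 / 9) ^ m * Q := by
          refine sum_le_sum fun th' h => ?_
          exact hcomR th hth th' (mem_of_mem_erase h) (ne_of_mem_erase h).symm
        _ = ((Θ.erase th).card : ℝ) * ((8 / 9) ^ m * Q) := by rw [sum_const, nsmul_eq_mul]
        _ ≤ (Θ.card : ℝ) * ((8 / 9) ^ m * Q) := by
          apply mul_le_mul_of_nonneg_right _ (by positivity)
          exact_mod_cast card_le_card (erase_subset _ _)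
    have h3 : ((A th).card : ℝ) ≤ (Bd th).card + ((Θ.erase th).biUnion fun th' => A th ∩ A th').card := by
      exact_mod_cast h1
    rw [hAc th] at h3
    have h4 : ((3 ^ (9 * m ^ 3) : ℕ) : ℝ) = Q := by rw [hQ]; push_cast; rfl
    rw [h4] at h3
    linarith
  have hunion : ((Θ.biUnion Bd).card : ℝ) ≤ t n 3 := by
    have : (Θ.biUnion Bd).card ≤ t n 3 := by
      apply card_le_card
      intro S hS
      obtain ⟨th, -, hS'⟩ := mem_biUnion.1 hS
      have h1 := hAt th (mem_sdiff.1 hS').1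
      rw [mem_filter] at h1 ⊢
      exact h1
    exact_mod_cast this
  rw [card_biUnion hBdis] at hunion
  push_cast at hunion
  have hΘR : (Θ.card : ℝ) = (3 * m) ^ 2 * (3 * m - 1) := by
    rw [hΘc, hn, Nat.cast_mul, Nat.cast_sub (by omega)]; push_cast; ring
  have h5 : ∑ th ∈ Θ, (Q - (Θ.card : ℝ) * ((8 / 9) ^ m * Q)) ≤ ∑ th ∈ Θ, ((Bd th).card : ℝ) := sum_le_sum hBc
  rw [sum_const, nsmul_eq_mul] at h5
  rw [← hΘR]
  calc (Θ.card : ℝ) * (1 - Θ.card * (8 / 9) ^ m) * Q = (Θ.card : ℝ) * (Q - Θ.card * ((8 / 9) ^ m * Q)) := by ring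
    _ ≤ _ := le_trans h5 hunion

/-- In dimension 3 no exponent `C < 3` is possible; in particular `d - 1 = 2` is not. -/
theorem result : (∀ C : ℝ, C < 3 → ¬ (fun n : ℕ => (t n 3 : ℝ)) =O[Filter.atTop]
      fun n : ℕ => (n : ℝ) ^ C * ((3 : ℝ) ^ ((1 : ℝ) / 3)) ^ (n ^ 3)) ∧
    ¬ ∀ d : ℕ, 1 ≤ d → (fun n : ℕ => (t n d : ℝ)) =O[Filter.atTop]
      fun n : ℕ => (n : ℝ) ^ (d - 1) * ((3 : ℝ) ^ ((1 : ℝ) / 3)) ^ (n ^ d) := by
  have main : ∀ C : ℝ, C < 3 → ¬ (fun n : ℕ => (t n 3 : ℝ)) =O[Filter.atTop]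
      fun n : ℕ => (n : ℝ) ^ C * ((3 : ℝ) ^ ((1 : ℝ) / 3)) ^ (n ^ 3) := by
    intro C hC hO
    obtain ⟨K, hK⟩ := hO.bound
    -- pass to multiples of 3
    have hT : Filter.Tendsto (fun m : ℕ => 3 * m) Filter.atTop Filter.atTop :=
      Filter.tendsto_atTop_mono (fun m => by show m ≤ 3 * m; omega) Filter.tendsto_id
    have hK' := hT.eventually hK
    -- decay
    have hdec : Filter.Tendsto (fun m : ℕ => ((3 * m) ^ 2 * (3 * m - 1) : ℝ) * (8 / 9) ^ m) Filter.atTop
        (nhds 0) := by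
      have h1 := tendsto_pow_const_mul_const_pow_of_lt_one 3 (show (0 : ℝ) ≤ 8 / 9 by norm_num) (by norm_num)
      have h2 := h1.const_mul 27
      rw [mul_zero] at h2
      refine squeeze_zero' ?_ ?_ h2
      · filter_upwards [Filter.eventually_ge_atTop 1] with m hm
        have : (1 : ℝ) ≤ m := by exact_mod_cast hm
        have : (0 : ℝ) ≤ 3 * m - 1 := by linarith
        positivity
      · filter_upwards [Filter.eventually_ge_atTop 1] with m hm
        have h3 : (1 : ℝ) ≤ m := by exact_mod_cast hm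
        have h4 : ((3 * m) ^ 2 * (3 * m - 1) : ℝ) ≤ 27 * (m : ℝ) ^ 3 := by nlinarith [sq_nonneg (m : ℝ)]
        have h5 : (0 : ℝ) ≤ (8 / 9) ^ m := by positivity
        calc ((3 * m) ^ 2 * (3 * m - 1) : ℝ) * (8 / 9) ^ m ≤ 27 * (m : ℝ) ^ 3 * (8 / 9) ^ m :=
              mul_le_mul_of_nonneg_right h4 h5
          _ = 27 * ((m : ℝ) ^ 3 * (8 / 9) ^ m) := by ring
    have hhalf := hdec.eventually (gt_mem_nhds (show (0 : ℝ) < 1 / 2 by norm_num))
    -- growth of n^(3 - C)
    have hgrow : Filter.Tendsto (fun m : ℕ => ((3 * m : ℕ) : ℝ) ^ (3 - C)) Filter.atTop Filter.atTop :=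
      (tendsto_rpow_atTop (by linarith)).comp (tendsto_natCast_atTop_atTop.comp hT)
    have hbig := hgrow.eventually (Filter.eventually_gt_atTop (4 * K))
    obtain ⟨m, ⟨h1, h2, h3⟩, h4⟩ := ((hK'.and (hhalf.and hbig)).and (Filter.eventually_ge_atTop 1)).exists
    have hm : 0 < m := h4
    have hmR : (1 : ℝ) ≤ m := by exact_mod_cast h4
    have h5 := lower m hm
    rw [Real.norm_of_nonneg (Nat.cast_nonneg _), Real.norm_of_nonneg (by positivity)] at h1
    have hr : ((3 : ℝ) ^ ((1 : ℝ) / 3)) ^ ((3 * m) ^ 3) = 3 ^ (9 * m ^ 3) := by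
      rw [show (3 * m) ^ 3 = 3 * (9 * m ^ 3) by ring, pow_mul]
      congr 1
      rw [← Real.rpow_natCast, ← Real.rpow_mul (by norm_num)]
      norm_num
    rw [hr] at h1
    have hQ : (0 : ℝ) < 3 ^ (9 * m ^ 3) := by positivity
    set M : ℝ := (3 * m) ^ 2 * (3 * m - 1) with hM
    have hMpos : 0 < M := by
      have : (0 : ℝ) < 3 * m - 1 := by linarith
      positivity
    have h6 : M / 2 * 3 ^ (9 * m ^ 3) ≤ t (3 * m) 3 := by
      refine le_trans ?_ h5
      apply mul_le_mul_of_nonneg_right _ hQ.le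
      nlinarith
    have h7 : M / 2 ≤ K * ((3 * m : ℕ) : ℝ) ^ C := by
      have := le_trans h6 h1
      rw [← mul_assoc] at this
      exact le_of_mul_le_mul_right this hQ
    have hx : (0 : ℝ) < ((3 * m : ℕ) : ℝ) := by exact_mod_cast Nat.mul_pos (by norm_num) hm
    have h8 : ((3 * m : ℕ) : ℝ) ^ (3 : ℝ) = ((3 * m : ℕ) : ℝ) ^ C * ((3 * m : ℕ) : ℝ) ^ (3 - C) := by
      rw [← Real.rpow_add hx]; congr 1; ring
    have h9 : ((3 * m : ℕ) : ℝ) ^ (3 : ℝ) ≤ 2 * M := by
      rw [show (3 : ℝ) = ((3 : ℕ) : ℝ) by norm_num, Real.rpow_natCast, hM]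
      push_cast
      nlinarith [sq_nonneg (m : ℝ), mul_pos (show (0 : ℝ) < m by linarith) (show (0 : ℝ) < m by linarith)]
    have hC0 : (0 : ℝ) < ((3 * m : ℕ) : ℝ) ^ C := Real.rpow_pos_of_pos hx _
    have h10 : ((3 * m : ℕ) : ℝ) ^ C * ((3 * m : ℕ) : ℝ) ^ (3 - C) ≤ ((3 * m : ℕ) : ℝ) ^ C * (4 * K) := by
      rw [← h8]; linarith
    have h11 := le_of_mul_le_mul_left h10 hC0
    linarith
  refine ⟨main, fun h => main 2 (by norm_num) ?_⟩
  have h1 := h 3 (by norm_num)
  convert h1 using 3 with n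
  norm_num

end Pool.Agent.Results.MP_13da68_co.DimensionThree
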