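import Pool.Agent.Q229.TC.Defs

/-!
# MP_13da68_co, Q1: `t_{n,d} = O(n^{C(d)} 3^{n^d/3})`
-/

set_option autoImplicit false

namespace Pool.Agent.Results.MP_13da68_co.PolynomialFactor

open Finset Pool.Agent.Q229.TC

theorem mem_ibox {n d : ℕ} {x : Fin d → ℤ} : x ∈ ibox n d ↔ ∀ i, 1 ≤ x i ∧ x i ≤ n := by
  simp [ibox, Fintype.mem_piFinset]

theorem card_ibox (n d : ℕ) : (ibox n d).card = n ^ d := by
  simp [ibox, Fintype.card_piFinset]

/-- the window -/
noncomputable def win (n d : ℕ) : Finset (Fin d → ℤ) := Fintype.piFinset fun _ => Finset.Icc (-(2 * n : ℤ)) (-2)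

theorem mem_win {n d : ℕ} {x : Fin d → ℤ} : x ∈ win n d ↔ ∀ i, -(2 * n : ℤ) ≤ x i ∧ x i ≤ -2 := by
  simp [win, Fintype.mem_piFinset]

theorem card_win_le (n d : ℕ) : (win n d).card ≤ (2 * n) ^ d := by
  have : (win n d).card = (Finset.Icc (-(2 * n : ℤ)) (-2)).card ^ d := by
    simp [win, Fintype.card_piFinset]
  rw [this]
  apply Nat.pow_le_pow_left
  rw [Int.card_Icc]
  omega

theorem cube_le_three_pow (b : ℕ) : b ^ 3 ≤ 3 ^ b := by
  have key : ∀ b : ℕ, (b + 3) ^ 3 ≤ 3 ^ (b + 3) := by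
    intro b
    induction b with
    | zero => norm_num
    | succ b ih =>
      have : (b + 1 + 3) ^ 3 ≤ 3 * (b + 3) ^ 3 := by nlinarith [sq_nonneg b, Nat.zero_le (b ^ 3)]
      calc (b + 1 + 3) ^ 3 ≤ 3 * (b + 3) ^ 3 := this
        _ ≤ 3 * 3 ^ (b + 3) := Nat.mul_le_mul_left _ ih
        _ = 3 ^ (b + 1 + 3) := by ring
  rcases Nat.lt_or_ge b 3 with h | h
  · interval_cases b <;> norm_num
  · obtain ⟨c, rfl⟩ : ∃ c, b = c + 3 := ⟨b - 3, by omega⟩
    exact key c

/-- tiles with the same trace of the translation set on the window -/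
theorem fiber_bound {n d : ℕ} (τ : Finset (Fin d → ℤ)) (𝒮 : Finset (Finset (Fin d → ℤ)))
    (h : ∀ S ∈ 𝒮, S ⊆ ibox n d ∧ ∃ T : Set (Fin d → ℤ),
      (∀ x, ∃! p : (Fin d → ℤ) × (Fin d → ℤ), p.1 ∈ S ∧ p.2 ∈ T ∧ p.1 + p.2 = x) ∧
      ∀ x ∈ win n d, x ∈ T ↔ x ∈ τ) : 𝒮.card ^ 3 ≤ 3 ^ (n ^ d) := by
  classical
  rcases 𝒮.eq_empty_or_nonempty with h0 | ⟨S0, hS0⟩
  · rw [h0]; simp
  obtain ⟨hS0b, T0, hT0, hτ0⟩ := h S0 hS0
  -- `-s - x` lies in the window
  have hwin : ∀ s ∈ ibox n d, ∀ x ∈ ibox n d, -s - x ∈ win n d := by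
    intro s hs x hx
    rw [mem_ibox] at hs hx
    rw [mem_win]
    intro i
    have := hs i; have := hx i
    simp only [Pi.sub_apply, Pi.neg_apply]
    omega
  -- the blocks
  let B : (Fin d → ℤ) → Finset (Fin d → ℤ) := fun s => (ibox n d).filter fun x => -s - x ∈ τ
  -- every tile meets every block exactly once
  have hmeet : ∀ S ∈ 𝒮, ∀ s ∈ S0, ∃! x, x ∈ S ∧ x ∈ B s := by
    intro S hS s hs
    obtain ⟨hSb, T, hT, hτ⟩ := h S hS
    obtain ⟨⟨x, y⟩, ⟨h1, h2, h3⟩, hu⟩ := hT (-s)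
    simp only at h1 h2 h3
    have hy : y = -s - x := by rw [← h3]; abel
    refine ⟨x, ⟨h1, mem_filter.2 ⟨hSb h1, ?_⟩⟩, ?_⟩
    · rw [← hτ _ (hwin s (hS0b hs) x (hSb h1)), ← hy]; exact h2
    · rintro x' ⟨hx', hx'B⟩
      have h4 : -s - x' ∈ T := (hτ _ (hwin s (hS0b hs) x' (hSb hx'))).2 (mem_filter.1 hx'B).2
      have := hu (x', -s - x') ⟨hx', h4, by simp⟩
      exact congrArg Prod.fst this
  -- the blocks partition the box
  have hpart : ∀ x ∈ ibox n d, ∃ s ∈ S0, x ∈ B s := by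
    intro x hx
    obtain ⟨⟨s, y⟩, ⟨h1, h2, h3⟩, -⟩ := hT0 (-x)
    simp only at h1 h2 h3
    refine ⟨s, h1, mem_filter.2 ⟨hx, ?_⟩⟩
    rw [← hτ0 _ (hwin s (hS0b h1) x hx)]
    have : -s - x = y := by
      have : y = -x - s := by rw [← h3]; abel
      rw [this]; abel
    rw [this]; exact h2
  have hdisj : ∀ s ∈ S0, ∀ s' ∈ S0, s ≠ s' → Disjoint (B s) (B s') := by
    intro s hs s' hs' hne
    rw [Finset.disjoint_left]
    intro x hx hx'
    obtain ⟨hxb, h1⟩ := mem_filter.1 hx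
    have h2 := (mem_filter.1 hx').2
    have h1' := (hτ0 _ (hwin s (hS0b hs) x hxb)).2 h1
    have h2' := (hτ0 _ (hwin s' (hS0b hs') x hxb)).2 h2
    have := (hT0 (-x)).unique (y₁ := (s, -s - x)) (y₂ := (s', -s' - x)) ⟨hs, h1', by show s + (-s - x) = -x; abel⟩
      ⟨hs', h2', by show s' + (-s' - x) = -x; abel⟩
    exact hne (congrArg Prod.fst this)
  have hsum : ∑ s ∈ S0, (B s).card = n ^ d := by
    rw [← card_ibox n d, ← card_biUnion hdisj]
    congr 1
    ext x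
    rw [mem_biUnion]
    constructor
    · rintro ⟨s, -, hx⟩; exact (mem_filter.1 hx).1
    · intro hx; exact hpart x hx
  -- injection into the product of the blocks
  choose g hg using hmeet
  have hcard : 𝒮.card ≤ (S0.pi B).card := by
    apply Finset.card_le_card_of_injOn (fun S => if hS : S ∈ 𝒮 then fun s hs => g S hS s hs else fun _ _ => 0)
    · intro S hS
      simp only [mem_coe] at hS
      simp only [dif_pos hS]
      rw [Finset.mem_coe, Finset.mem_pi]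
      intro s hs
      exact (hg S hS s hs).1.2
    · intro S hS S' hS' heq
      simp only [mem_coe] at hS hS'
      simp only [dif_pos hS, dif_pos hS'] at heq
      have key : ∀ (S S' : Finset (Fin d → ℤ)) (hS : S ∈ 𝒮) (hS' : S' ∈ 𝒮),
          ((fun s hs => g S hS s hs : ∀ s ∈ S0, Fin d → ℤ) = fun s hs => g S' hS' s hs) → S ⊆ S' := by
        intro S S' hS hS' heq x hx
        obtain ⟨s, hs, hxB⟩ := hpart x ((h S hS).1 hx)
        have h1 := (hg S hS s hs).2 x ⟨hx, hxB⟩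
        have h2 : g S hS s hs = g S' hS' s hs := congrFun (congrFun heq s) hs
        rw [h1, h2]
        exact (hg S' hS' s hs).1.1
      exact Finset.Subset.antisymm (key S S' hS hS' heq) (key S' S hS' hS heq.symm)
  calc 𝒮.card ^ 3 ≤ (S0.pi B).card ^ 3 := Nat.pow_le_pow_left hcard 3
    _ = ∏ s ∈ S0, (B s).card ^ 3 := by rw [card_pi, prod_pow]
    _ ≤ ∏ s ∈ S0, 3 ^ (B s).card := prod_le_prod' fun s _ => cube_le_three_pow _
    _ = 3 ^ (n ^ d) := by rw [prod_pow_eq_pow_sum, hsum]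

/-- the number of translates that matter is bounded for large tiles -/
theorem card_trace {n d : ℕ} (S : Finset (Fin d → ℤ)) (hS : S ⊆ ibox n d) (hbig : n ^ d ≤ 16 * S.card)
    (hn : 1 ≤ n) (T : Set (Fin d → ℤ))
    (hT : ∀ x, ∃! p : (Fin d → ℤ) × (Fin d → ℤ), p.1 ∈ S ∧ p.2 ∈ T ∧ p.1 + p.2 = x) (τ : Finset (Fin d → ℤ))
    (hτ : τ ⊆ win n d) (hτT : ∀ x ∈ τ, x ∈ T) : τ.card ≤ 16 * 3 ^ d := by
  classical
  -- the sums `s + t` are distinct points of a box of side less than `3 n`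
  have hmap : τ.card * S.card ≤ (3 * n) ^ d := by
    have h1 : (Fintype.piFinset fun _ : Fin d => Finset.Icc (1 - 2 * n : ℤ) (n - 2)).card ≤ (3 * n) ^ d := by
      have : (Fintype.piFinset fun _ : Fin d => Finset.Icc (1 - 2 * n : ℤ) (n - 2)).card =
          (Finset.Icc (1 - 2 * n : ℤ) (n - 2)).card ^ d := by simp [Fintype.card_piFinset]
      rw [this]
      apply Nat.pow_le_pow_left
      rw [Int.card_Icc]
      omega
    rw [← card_product]
    refine le_trans (Finset.card_le_card_of_injOn (fun p : (Fin d → ℤ) × (Fin d → ℤ) => p.2 + p.1) ?_ ?_) h1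
    · intro p hp
      rw [mem_coe, mem_product] at hp
      rw [mem_coe, Fintype.mem_piFinset]
      intro i
      have h2 := mem_win.1 (hτ hp.1) i
      have h3 := mem_ibox.1 (hS hp.2) i
      rw [mem_Icc]
      show 1 - 2 * (n : ℤ) ≤ p.2 i + p.1 i ∧ p.2 i + p.1 i ≤ n - 2
      omega
    · intro p hp q hq hpq
      rw [mem_coe, mem_product] at hp hq
      simp only at hpq
      have := (hT (p.2 + p.1)).unique (y₁ := (p.2, p.1)) (y₂ := (q.2, q.1)) ⟨hp.2, hτT _ hp.1, rfl⟩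
        ⟨hq.2, hτT _ hq.1, hpq.symm⟩
      rw [Prod.mk.injEq] at this
      exact Prod.ext this.2 this.1
  have hSpos : 0 < S.card := by
    rcases Nat.eq_zero_or_pos S.card with h | h
    · rw [h] at hbig
      have : 0 < n ^ d := Nat.pow_pos hn
      omega
    · exact h
  have h2 : τ.card * S.card ≤ (16 * 3 ^ d) * S.card := by
    calc τ.card * S.card ≤ (3 * n) ^ d := hmap
      _ = 3 ^ d * n ^ d := by rw [mul_pow]
      _ ≤ 3 ^ d * (16 * S.card) := Nat.mul_le_mul_left _ hbig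
      _ = (16 * 3 ^ d) * S.card := by ring
  exact Nat.le_of_mul_le_mul_right h2 hSpos

/-- the number of subsets with at most `K` elements -/
theorem card_small_subsets {α : Type*} [DecidableEq α] (s : Finset α) (K : ℕ) :
    (s.powerset.filter fun u => u.card ≤ K).card ≤ (s.card + 1) ^ K := by
  have h1 : s.powerset.filter (fun u => u.card ≤ K) = (range (K + 1)).biUnion fun j => s.powersetCard j := by
    ext u
    simp only [mem_filter, mem_powerset, mem_biUnion, mem_range, mem_powersetCard]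
    constructor
    · rintro ⟨h1, h2⟩; exact ⟨u.card, by omega, h1, rfl⟩
    · rintro ⟨j, h1, h2, h3⟩; exact ⟨h2, by omega⟩
  rw [h1]
  refine le_trans card_biUnion_le ?_
  rw [add_pow]
  refine sum_le_sum fun j hj => ?_
  rw [card_powersetCard]
  have h2 : s.card.choose j ≤ s.card ^ j := Nat.choose_le_pow _ _
  have h3 : 1 ≤ K.choose j := Nat.choose_pos (by simpa using Nat.lt_succ_iff.1 (mem_range.1 hj))
  simp only [one_pow, mul_one]
  exact le_trans h2 (Nat.le_mul_of_pos_right _ h3)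

/-- the real number `3^{1/3}` -/
noncomputable def r : ℝ := (3 : ℝ) ^ ((1 : ℝ) / 3)

theorem r_pos : 0 < r := Real.rpow_pos_of_pos (by norm_num) _

theorem r_cube : r ^ 3 = 3 := by
  rw [r, ← Real.rpow_natCast, ← Real.rpow_mul (by norm_num)]
  norm_num

theorem le_of_cube {q v : ℕ} (h : q ^ 3 ≤ 3 ^ v) : (q : ℝ) ≤ r ^ v := by
  have h1 : (q : ℝ) ^ 3 ≤ (r ^ v) ^ 3 := by
    rw [← pow_mul, mul_comm, pow_mul, r_cube]
    exact_mod_cast h
  exact le_of_pow_le_pow_left₀ (by norm_num) (pow_nonneg r_pos.le _) h1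

/-- small sets are few -/
theorem small_sets {α : Type*} [DecidableEq α] (s : Finset α) :
    ((s.powerset.filter fun u => 16 * u.card < s.card).card : ℝ) ≤ r ^ s.card := by
  set v := s.card with hv
  -- `8^{-|u|}` sums to `(9/8)^v`
  have h1 : ∑ u ∈ s.powerset, ((1 : ℝ) / 8) ^ u.card * 1 ^ (s.card - u.card) = (1 / 8 + 1) ^ s.card :=
    Finset.sum_pow_mul_eq_add_pow _ _ s
  set q : ℝ := (8 : ℝ) ^ ((1 : ℝ) / 16) with hq
  have hq0 : 0 < q := Real.rpow_pos_of_pos (by norm_num) _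
  have hq16 : q ^ 16 = 8 := by
    rw [hq, ← Real.rpow_natCast, ← Real.rpow_mul (by norm_num)]; norm_num
  have hq1 : 1 ≤ q := by
    by_contra hlt
    push Not at hlt
    have := pow_lt_one₀ hq0.le hlt (n := 16) (by norm_num)
    rw [hq16] at this
    norm_num at this
  have h2 : ((s.powerset.filter fun u => 16 * u.card < s.card).card : ℝ) ≤ q ^ v * (9 / 8) ^ v := by
    have h3 : ∀ u ∈ s.powerset.filter (fun u => 16 * u.card < s.card), (1 : ℝ) ≤ q ^ v * (1 / 8) ^ u.card := by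
      intro u hu
      have hu2 := (mem_filter.1 hu).2
      have h4 : q ^ (16 * u.card) ≤ q ^ v := pow_le_pow_right₀ hq1 (by omega)
      rw [pow_mul, hq16] at h4
      have h5 : (0 : ℝ) < (1 / 8) ^ u.card := by positivity
      calc (1 : ℝ) = 8 ^ u.card * (1 / 8) ^ u.card := by rw [← mul_pow]; norm_num
        _ ≤ q ^ v * (1 / 8) ^ u.card := mul_le_mul_of_nonneg_right h4 h5.le
    calc ((s.powerset.filter fun u => 16 * u.card < s.card).card : ℝ)
        = ∑ u ∈ s.powerset.filter (fun u => 16 * u.card < s.card), (1 : ℝ) := by simp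
      _ ≤ ∑ u ∈ s.powerset.filter (fun u => 16 * u.card < s.card), q ^ v * (1 / 8) ^ u.card := sum_le_sum h3
      _ ≤ ∑ u ∈ s.powerset, q ^ v * (1 / 8) ^ u.card :=
          sum_le_sum_of_subset_of_nonneg (filter_subset _ _) fun _ _ _ => by positivity
      _ = q ^ v * ∑ u ∈ s.powerset, (1 / 8) ^ u.card := by rw [mul_sum]
      _ = q ^ v * (9 / 8) ^ v := by
          congr 1
          simp only [one_pow, mul_one] at h1
          rw [h1, ← hv]; norm_num
  have h6 : q * (9 / 8) ≤ r := by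
    have h7 : (q * (9 / 8)) ^ 48 ≤ r ^ 48 := by
      have e1 : (q * (9 / 8)) ^ 48 = (q ^ 16) ^ 3 * (9 / 8) ^ 48 := by ring
      have e2 : r ^ 48 = (r ^ 3) ^ 16 := by ring
      rw [e1, e2, hq16, r_cube]
      norm_num
    exact le_of_pow_le_pow_left₀ (by norm_num) r_pos.le h7
  calc ((s.powerset.filter fun u => 16 * u.card < s.card).card : ℝ) ≤ q ^ v * (9 / 8) ^ v := h2
    _ = (q * (9 / 8)) ^ v := by rw [mul_pow]
    _ ≤ r ^ v := pow_le_pow_left₀ (by positivity) h6 v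

/-- the main bound -/
theorem main_bound (n d : ℕ) (hn : 1 ≤ n) :
    (t n d : ℝ) ≤ 2 * (((2 * n) ^ d + 1 : ℕ) : ℝ) ^ (16 * 3 ^ d) * r ^ (n ^ d) := by
  classical
  set K := 16 * 3 ^ d with hK
  set P := (ibox n d).powerset with hP
  set big := P.filter fun S => TilesByTranslations S ∧ n ^ d ≤ 16 * S.card with hbig
  set small := P.filter fun S => 16 * S.card < n ^ d with hsmall
  have hsplit : t n d ≤ big.card + small.card := by
    refine le_trans (card_le_card ?_) (card_union_le big small)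
    intro S hS
    obtain ⟨h1, h2⟩ := mem_filter.1 hS
    rw [mem_union]
    rcases Nat.lt_or_ge (16 * S.card) (n ^ d) with h | h
    · right; exact mem_filter.2 ⟨h1, h⟩
    · left; exact mem_filter.2 ⟨h1, h2, h⟩
  have hsm : (small.card : ℝ) ≤ r ^ (n ^ d) := by
    have := small_sets (ibox n d)
    rw [card_ibox] at this
    exact this
  -- translation sets
  have hT : ∀ S : Finset (Fin d → ℤ), ∃ T : Set (Fin d → ℤ), TilesByTranslations S →
      ∀ x, ∃! p : (Fin d → ℤ) × (Fin d → ℤ), p.1 ∈ S ∧ p.2 ∈ T ∧ p.1 + p.2 = x := by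
    intro S
    by_cases h : TilesByTranslations S
    · obtain ⟨T, hT⟩ := h
      exact ⟨T, fun _ => hT⟩
    · exact ⟨∅, fun h' => absurd h' h⟩
  choose T hT using hT
  let τ : Finset (Fin d → ℤ) → Finset (Fin d → ℤ) := fun S => (win n d).filter fun x => x ∈ T S
  set patterns := (win n d).powerset.filter fun u => u.card ≤ K with hpat
  have hmaps : ∀ S ∈ big, τ S ∈ patterns := by
    intro S hS
    obtain ⟨h1, h2, h3⟩ := mem_filter.1 hS
    refine mem_filter.2 ⟨mem_powerset.2 (filter_subset _ _), ?_⟩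
    exact card_trace S (mem_powerset.1 h1) h3 hn (T S) (hT S h2) (τ S) (filter_subset _ _)
      (fun x hx => (mem_filter.1 hx).2)
  have hfib : ∀ u ∈ patterns, ((big.filter fun S => τ S = u).card : ℝ) ≤ r ^ (n ^ d) := by
    intro u _
    apply le_of_cube
    apply fiber_bound u
    intro S hS
    obtain ⟨hSb, hSu⟩ := mem_filter.1 hS
    obtain ⟨h1, h2, h3⟩ := mem_filter.1 hSb
    refine ⟨mem_powerset.1 h1, T S, hT S h2, ?_⟩
    intro x hx
    rw [← hSu]
    simp [τ, hx]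
  have hpc : (patterns.card : ℝ) ≤ (((2 * n) ^ d + 1 : ℕ) : ℝ) ^ K := by
    have h1 := card_small_subsets (win n d) K
    have h2 : ((win n d).card + 1) ^ K ≤ ((2 * n) ^ d + 1) ^ K :=
      Nat.pow_le_pow_left (Nat.add_le_add_right (card_win_le n d) 1) K
    exact_mod_cast le_trans h1 h2
  have hbigc : (big.card : ℝ) ≤ (((2 * n) ^ d + 1 : ℕ) : ℝ) ^ K * r ^ (n ^ d) := by
    rw [card_eq_sum_card_fiberwise hmaps]
    push_cast
    calc ∑ u ∈ patterns, ((big.filter fun S => τ S = u).card : ℝ) ≤ ∑ u ∈ patterns, r ^ (n ^ d) := sum_le_sum hfib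
      _ = patterns.card * r ^ (n ^ d) := by rw [sum_const, nsmul_eq_mul]
      _ ≤ _ := by
        have := mul_le_mul_of_nonneg_right hpc (pow_nonneg r_pos.le (n ^ d))
        push_cast at this
        exact this
  have h1 : (1 : ℝ) ≤ (((2 * n) ^ d + 1 : ℕ) : ℝ) ^ K := by
    apply one_le_pow₀
    push_cast
    have : (0 : ℝ) ≤ (2 * (n : ℝ)) ^ d := by positivity
    linarith
  calc (t n d : ℝ) ≤ big.card + small.card := by exact_mod_cast hsplit
    _ ≤ (((2 * n) ^ d + 1 : ℕ) : ℝ) ^ K * r ^ (n ^ d) + r ^ (n ^ d) := add_le_add hbigc hsm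
    _ ≤ (((2 * n) ^ d + 1 : ℕ) : ℝ) ^ K * r ^ (n ^ d) + (((2 * n) ^ d + 1 : ℕ) : ℝ) ^ K * r ^ (n ^ d) := by
        have := mul_le_mul_of_nonneg_right h1 (pow_nonneg r_pos.le (n ^ d))
        linarith
    _ = _ := by ring

/-- For each `d ≥ 1` there is a constant `C` with `t_{n,d} = O(n^C (3^{1/3})^{n^d})`. -/
theorem result : ∀ d : ℕ, 1 ≤ d → ∃ C : ℕ,
    (fun n : ℕ => (t n d : ℝ)) =O[Filter.atTop] fun n : ℕ => (n : ℝ) ^ C * ((3 : ℝ) ^ ((1 : ℝ) / 3)) ^ (n ^ d) := by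
  intro d hd
  refine ⟨d * (16 * 3 ^ d), ?_⟩
  apply Asymptotics.IsBigO.of_bound (2 * ((2 : ℝ) ^ (d + 1)) ^ (16 * 3 ^ d))
  filter_upwards [Filter.eventually_ge_atTop 1] with n hn
  have h1 := main_bound n d hn
  have hn' : (1 : ℝ) ≤ n := by exact_mod_cast hn
  rw [Real.norm_of_nonneg (Nat.cast_nonneg _), Real.norm_of_nonneg (by positivity)]
  refine le_trans h1 ?_
  have h2 : (((2 * n) ^ d + 1 : ℕ) : ℝ) ≤ 2 ^ (d + 1) * (n : ℝ) ^ d := by
    push_cast
    have e1 : (1 : ℝ) ≤ (2 * (n : ℝ)) ^ d := one_le_pow₀ (by linarith)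
    have e2 : (2 : ℝ) ^ (d + 1) * (n : ℝ) ^ d = 2 * (2 * (n : ℝ)) ^ d := by rw [mul_pow, pow_succ]; ring
    rw [e2]; linarith
  have h3 : (((2 * n) ^ d + 1 : ℕ) : ℝ) ^ (16 * 3 ^ d) ≤ (2 ^ (d + 1) * (n : ℝ) ^ d) ^ (16 * 3 ^ d) :=
    pow_le_pow_left₀ (Nat.cast_nonneg _) h2 _
  have h4 : (0 : ℝ) ≤ r ^ (n ^ d) := pow_nonneg r_pos.le _
  calc 2 * (((2 * n) ^ d + 1 : ℕ) : ℝ) ^ (16 * 3 ^ d) * r ^ (n ^ d)
      ≤ 2 * (2 ^ (d + 1) * (n : ℝ) ^ d) ^ (16 * 3 ^ d) * r ^ (n ^ d) := by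
        apply mul_le_mul_of_nonneg_right _ h4
        linarith
    _ = 2 * ((2 : ℝ) ^ (d + 1)) ^ (16 * 3 ^ d) * ((n : ℝ) ^ (d * (16 * 3 ^ d)) * r ^ (n ^ d)) := by
        rw [mul_pow, ← pow_mul (n : ℝ)]; ring

end Pool.Agent.Results.MP_13da68_co.PolynomialFactor
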